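import Pool.Agent.Lib.MP_9277c3_lc.helper83.TURN

/-!
# Automata which empty their stack when they reject

For a one-way automaton `M` the automaton `M.plus` accepts the same words. It removes all symbols
from its stack when `M` is stuck, and when `M` goes on for ever without moving its head and without
acceptance. So on each word its run ends, with acceptance or with an empty stack, and it has at most
one turn more than the run of `M`.
-/

set_option autoImplicit false

namespace Pool.Agent.Lib.MP_9277c3_lc.DPDA

variable {α : Type} (M : DPDA α)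

/-- The number of turns of the run on `x` (until acceptance, if `x` is accepted) is at most `R`. -/
def TurnsLe (R : ℕ) (x : List α) : Prop :=
  (∃ r, r ≤ R ∧ M.AcceptsTurns r x) ∨
    ∀ r c, M.TSteps x r false (M.start, 1, [M.bottom]) c → r ≤ R

/-- Steps without acceptance in which the head stays on its position, where it sees `c`. -/
inductive LSteps (c : Cell α) : ℕ → M.State × List M.Stack → M.State × List M.Stack → Prop
  | refl (s : M.State × List M.Stack) : LSteps c 0 s s
  | head (t : ℕ) (q : M.State) (X : M.Stack) (γ : List M.Stack) (q' : M.State) (mv : Move)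
      (β : List M.Stack) (s : M.State × List M.Stack) (ha : ¬M.accepting q c)
      (h : M.next q c X = some (q', mv, β)) (hm : mv = Move.stay ∨ mv = Move.right ∧ c = Cell.right)
      (h' : LSteps c t (q', β ++ γ) s) : LSteps c (t + 1) (q, X :: γ) s

/-- The automaton goes on for ever, without acceptance, without moving its head and without removing
the symbol `X` with everything which replaces it. -/
def Loops (q : M.State) (c : Cell α) (X : M.Stack) : Prop :=
  ∀ t, ∃ s, M.LSteps c t (q, [X]) s

open Classical in
/-- The moves of the automaton `plus`; its states are those of `M` and `none`. -/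
noncomputable def plusNext (q : Option M.State) (c : Cell α) (X : M.Stack) :
    Option (Option M.State × Move × List M.Stack) :=
  match q with
  | none => some (none, Move.stay, [])
  | some p => if M.Loops p c X then some (none, Move.stay, []) else
    match M.next p c X with
    | none => some (none, Move.stay, [])
    | some (p', mv, β) => some (some p', mv, β)

/-- The automaton which removes all symbols when `M` rejects. -/
noncomputable def plus : DPDA α where
  State := Option M.State
  Stack := M.Stack
  finite_state := by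
    have := M.finite_state
    infer_instance
  finite_stack := M.finite_stack
  start := some M.start
  bottom := M.bottom
  accepting q c := ∃ p, q = some p ∧ M.accepting p c
  next := M.plusNext

variable {M} {x : List α}

theorem plus_next_none (c : Cell α) (X : M.Stack) :
    M.plusNext none c X = some (none, Move.stay, []) := rfl

theorem plus_next_none_inv {c : Cell α} {X : M.Stack} {r : Option M.State × Move × List M.Stack}
    (h : M.plusNext none c X = some r) : r.1 = none := by
  rw [plus_next_none, Option.some.injEq] at h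
  rw [← h]

theorem plus_next_rej {p : M.State} {c : Cell α} {X : M.Stack}
    (h : M.Loops p c X ∨ M.next p c X = none) :
    M.plusNext (some p) c X = some (none, Move.stay, []) := by
  by_cases hl : M.Loops p c X
  · simp only [plusNext, if_pos hl]
  · rcases h with h | h
    · exact absurd h hl
    · simp only [plusNext, if_neg hl, h]

theorem plus_next_some {p p' : M.State} {c : Cell α} {X : M.Stack} {mv : Move} {β : List M.Stack}
    (hl : ¬M.Loops p c X) (h : M.next p c X = some (p', mv, β)) :
    M.plusNext (some p) c X = some (some p', mv, β) := by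
  simp only [plusNext, if_neg hl, h]

theorem plus_next_inv {p : M.State} {c : Cell α} {X : M.Stack}
    {r : Option M.State × Move × List M.Stack}
    (h : M.plusNext (some p) c X = some r) : r = (none, Move.stay, []) ∨
      ∃ p' mv β, M.next p c X = some (p', mv, β) ∧ r = (some p', mv, β) := by
  by_cases hl : M.Loops p c X
  · rw [plus_next_rej (Or.inl hl)] at h
    exact Or.inl (Option.some.inj h).symm
  · rcases hn : M.next p c X with _ | ⟨p', mv, β⟩
    · rw [plus_next_rej (Or.inr hn)] at h
      exact Or.inl (Option.some.inj h).symm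
    · rw [plus_next_some hl hn] at h
      exact Or.inr ⟨p', mv, β, rfl, (Option.some.inj h).symm⟩

theorem plusNext_oneway
    (hM : ∀ q c X q' mv β, M.next q c X = some (q', mv, β) → mv ≠ Move.left)
    {q : Option M.State} {c : Cell α} {X : M.Stack} {r : Option M.State × Move × List M.Stack}
    (h : M.plusNext q c X = some r) : r.2.1 ≠ Move.left := by
  cases q with
  | none =>
    rw [plus_next_none, Option.some.injEq] at h
    rw [← h]
    exact fun h => by cases h
  | some p =>
    rcases plus_next_inv h with h1 | ⟨p', mv', β', h1, h2⟩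
    · rw [h1]
      exact fun h => by cases h
    · rw [h2]
      exact hM _ _ _ _ _ _ h1

/-- One-way automata stay one-way. -/
theorem plus_oneway (hM : ∀ q c X q' mv β, M.next q c X = some (q', mv, β) → mv ≠ Move.left) :
    ∀ q c X q' mv β, M.plus.next q c X = some (q', mv, β) → mv ≠ Move.left :=
  fun q c X q' mv β h => plusNext_oneway hM (q := q) (c := c) (X := X) (r := (q', mv, β)) h

/-! ### Determinism -/

theorem cell_right_iff {i : ℕ} : cell x i = Cell.right ↔ x.length + 1 ≤ i := by
  cases i with
  | zero => simp [cell]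
  | succ i =>
    simp only [cell]
    cases h : x[i]? with
    | none =>
      rw [List.getElem?_eq_none_iff] at h
      simp [h]
    | some a =>
      have := (List.getElem?_eq_some_iff.1 h).1
      simp only [reduceCtorEq, false_iff]
      omega

theorem Step.det {c c₁ c₂ : M.State × ℕ × List M.Stack} (h₁ : M.Step x c c₁) (h₂ : M.Step x c c₂) :
    c₁ = c₂ := by
  cases h₁ with
  | mk q i X γ q' mv β h =>
    cases h₂ with
    | mk _ _ _ _ q'' mv' β' h' =>
      rw [h] at h'
      simp only [Option.some.injEq, Prod.mk.injEq] at h'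
      obtain ⟨rfl, rfl, rfl⟩ := h'
      rfl

theorem Steps.snoc {t : ℕ} {c c' c'' : M.State × ℕ × List M.Stack} (h : M.Steps x t c c')
    (h' : M.Step x c' c'') : M.Steps x (t + 1) c c'' :=
  h.trans (Steps.head 0 _ _ _ h' (Steps.refl _))

theorem LSteps.snoc {c : Cell α} {t : ℕ} {s : M.State × List M.Stack} {q : M.State} {X : M.Stack}
    {γ : List M.Stack} {q' : M.State} {mv : Move} {β : List M.Stack}
    (h : M.LSteps c t s (q, X :: γ)) (ha : ¬M.accepting q c)
    (h' : M.next q c X = some (q', mv, β))
    (hm : mv = Move.stay ∨ mv = Move.right ∧ c = Cell.right) :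
    M.LSteps c (t + 1) s (q', β ++ γ) := by
  generalize hs : (q, X :: γ) = s' at h
  induction h with
  | refl s =>
    subst hs
    exact LSteps.head 0 _ _ _ _ _ _ _ ha h' hm (LSteps.refl _)
  | head t q₁ X₁ γ₁ q₂ mv₂ β₂ s ha₁ h₁ hm₁ _ ih =>
    exact LSteps.head _ _ _ _ _ _ _ _ ha₁ h₁ hm₁ (ih hs)

theorem apply_eq {c : Cell α} {mv : Move} {i : ℕ} (hi : i ≤ x.length + 1) (hc : cell x i = c)
    (hm : mv = Move.stay ∨ mv = Move.right ∧ c = Cell.right) : mv.apply x.length i = i := by
  rcases hm with rfl | ⟨rfl, rfl⟩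
  · rfl
  · rw [cell_right_iff] at hc
    simp only [Move.apply]
    omega

/-- No acceptance in a loop. -/
theorem LSteps.not_accepting {i : ℕ} (hi : i ≤ x.length + 1) : ∀ {t : ℕ}
    {s s' : M.State × List M.Stack} {γ : List M.Stack} {c : M.State × ℕ × List M.Stack},
    M.LSteps (cell x i) (t + 1) s s' → M.Steps x t (s.1, i, s.2 ++ γ) c →
      ¬M.accepting c.1 (cell x c.2.1) := by
  intro t
  induction t with
  | zero =>
    intro s s' γ c h h'
    cases h'
    cases h with
    | head _ q X δ q' mv β _ ha _ _ _ => exact ha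
  | succ t ih =>
    intro s s' γ c h h'
    cases h with
    | head _ q X δ q' mv β _ ha h₁ hm h₂ =>
      generalize hcc : ((q, X :: δ).1, i, (q, X :: δ).2 ++ γ) = cc at h'
      cases h' with
      | head _ _ c₁ _ g₁ g₂ =>
        have hstep : M.Step x cc (q', mv.apply x.length i, β ++ (δ ++ γ)) := by
          rw [← hcc]
          exact Step.mk q i X (δ ++ γ) q' mv β h₁
        rw [apply_eq hi rfl hm] at hstep
        have h4 := g₁.det hstep
        rw [h4, ← List.append_assoc] at g₂
        exact ih h₂ g₂

theorem Loops.not_accepting {q : M.State} {i : ℕ} {X : M.Stack} {γ : List M.Stack}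
    (hi : i ≤ x.length + 1) (h : M.Loops q (cell x i) X) {t : ℕ} {c : M.State × ℕ × List M.Stack}
    (h' : M.Steps x t (q, i, X :: γ) c) : ¬M.accepting c.1 (cell x c.2.1) := by
  obtain ⟨s, hs⟩ := h (t + 1)
  exact LSteps.not_accepting hi (γ := γ) hs h'

/-! ### The language -/

theorem mv_apply_le (mv : Move) {i : ℕ} (hi : i ≤ x.length + 1) :
    mv.apply x.length i ≤ x.length + 1 := by
  cases mv <;> simp only [Move.apply] <;> omega

theorem Steps.plus {t : ℕ} {c c' : M.State × ℕ × List M.Stack} (h : M.Steps x t c c')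
    (ha : M.accepting c'.1 (cell x c'.2.1)) : c.2.1 ≤ x.length + 1 →
      M.plus.Steps x t (some c.1, c.2.1, c.2.2) (some c'.1, c'.2.1, c'.2.2) := by
  induction h with
  | refl c => exact fun _ => Steps.refl _
  | head t c c₁ c₂ h h' ih =>
    intro hi
    cases h with
    | mk q i X γ q' mv β hn =>
      have hl : ¬M.Loops q (cell x i) X := fun hl =>
        hl.not_accepting hi (Steps.head _ _ _ _ (Step.mk q i X γ q' mv β hn) h') ha
      exact Steps.head _ _ _ _ (Step.mk (M := M.plus) (some q) i X γ (some q') mv β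
        (plus_next_some hl hn)) (ih ha (mv_apply_le mv hi))

theorem plus_steps_none {t : ℕ} {c c' : M.plus.State × ℕ × List M.plus.Stack}
    (h : M.plus.Steps x t c c') : c.1 = none → c'.1 = none := by
  induction h with
  | refl c => exact id
  | head t c c₁ c₂ h _ ih =>
    intro hc
    cases h with
    | mk q i X γ q' mv β hn =>
      refine ih ?_
      change (q : Option M.State) = none at hc
      change M.plusNext (q : Option M.State) (cell x i) X = some ((q' : Option M.State), mv, β) at hn
      rw [hc] at hn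
      exact plus_next_none_inv hn

theorem plus_steps_some {t : ℕ} {c c' : M.plus.State × ℕ × List M.plus.Stack}
    (h : M.plus.Steps x t c c') : ∀ p p', c.1 = some p → c'.1 = some p' →
      M.Steps x t (p, c.2.1, c.2.2) (p', c'.2.1, c'.2.2) := by
  induction h with
  | refl c =>
    intro p p' h h'
    rw [h] at h'
    obtain rfl := Option.some.inj h'
    exact Steps.refl _
  | head t c c₁ c₂ h h' ih =>
    intro p p' hp hp'
    cases h with
    | mk q i X γ q' mv β hn =>
      change (q : Option M.State) = some p at hp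
      change M.plusNext (q : Option M.State) (cell x i) X = some ((q' : Option M.State), mv, β) at hn
      rw [hp] at hn
      rcases plus_next_inv hn with h1 | ⟨p₁, mv', β', h1, h2⟩
      · have h3 := plus_steps_none h' (congrArg Prod.fst h1)
        rw [h3] at hp'
        exact absurd hp' (by simp)
      · have h3 : (q' : Option M.State) = some p₁ := congrArg Prod.fst h2
        have h4 : mv = mv' := congrArg (fun r => r.2.1) h2
        have h5 : β = β' := congrArg (fun r => r.2.2) h2
        subst h4 h5
        exact Steps.head _ _ _ _ (Step.mk p i X γ p₁ mv β h1) (ih p₁ p' h3 hp')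

/-- The automaton `M.plus` accepts the same words. -/
theorem plus_accepts : M.plus.Accepts x ↔ M.Accepts x := by
  constructor
  · rintro ⟨t, l, q, i, γ, hs, hl, p, rfl, ha⟩
    exact ⟨t, l, p, i, γ, plus_steps_some hs M.start p rfl rfl, hl, ha⟩
  · rintro ⟨t, l, q, i, γ, hs, hl, ha⟩
    exact ⟨t, l, some q, i, γ, hs.plus ha (Nat.le_add_left _ _), hl, q, rfl, ha⟩

/-! ### The end of the run -/

variable (M) in
/-- The run ends here: acceptance, an empty stack, no move, or a loop. -/
def Fin (x : List α) (c : M.State × ℕ × List M.Stack) : Prop :=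
  M.accepting c.1 (cell x c.2.1) ∨ c.2.2 = [] ∨ ∃ X γ, c.2.2 = X :: γ ∧
    (M.Loops c.1 (cell x c.2.1) X ∨ M.next c.1 (cell x c.2.1) X = none)

theorem rej_wb (i : ℕ) (l : List M.Stack) : M.plus.WB x 0 false (some none) i l (some none) i := by
  induction l with
  | nil => exact WB.nil _ _ _
  | cons X l ih =>
    refine WB.cons' (r₁ := 0) (r₂ := 0) ?_ ih
    exact WB.step (M := M.plus) 0 false none i X none Move.stay [] (some none) i
      (fun ⟨p, hp, _⟩ => absurd hp (by simp)) (plus_next_none (cell x i) X) (WB.nil _ _ _)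

theorem fin_wb {q : M.State} {i : ℕ} {γ : List M.Stack} (h : M.Fin x (q, i, γ)) (up : Bool) :
    ∃ r q' i', r ≤ 1 ∧ M.plus.WB x r up (some (some q)) i γ q' i' := by
  by_cases ha : M.accepting q (cell x i)
  · obtain ⟨c, h1, _⟩ := WB.accepts (M := M.plus) (x := x) up (q := some q) ⟨q, rfl, ha⟩ γ
    exact ⟨0, c, i, Nat.zero_le _, h1⟩
  · rcases h with h | h | ⟨X, δ, h, h'⟩
    · exact absurd h ha
    · simp only at h
      subst h
      exact ⟨0, _, _, Nat.zero_le _, WB.nil _ _ _⟩
    · simp only at h h'
      subst h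
      refine ⟨0 + turnOf up 0 + 0, some none, i, ?_, WB.cons' ?_ (rej_wb i δ)⟩
      · cases up <;> simp [turnOf]
      · exact WB.step (M := M.plus) 0 up (some q) i X none Move.stay [] (some none) i
          (fun ⟨p, hp, hp'⟩ => by
            obtain rfl := Option.some.inj hp
            exact ha hp') (plus_next_rej h') (WB.nil _ _ _)

/-- From the run of `M` to the tree of `M.plus`. -/
theorem TSteps.plus_wb {r : ℕ} {up : Bool} {c c' : M.State × ℕ × List M.Stack}
    (h : M.TSteps x r up c c') (hf : M.Fin x c') :
    ∃ r' q i, r' ≤ r + 1 ∧ M.plus.WB x r' up (some (some c.1)) c.2.1 c.2.2 q i := by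
  induction h with
  | refl up c =>
    obtain ⟨r', q, i, h1, h2⟩ := fin_wb hf up
    exact ⟨r', q, i, by omega, h2⟩
  | head r up q i X γ q' mv β c hn h' ih =>
    by_cases hfin : M.Fin x (q, i, X :: γ)
    · obtain ⟨r', q, i, h1, h2⟩ := fin_wb hfin up
      exact ⟨r', q, i, by omega, h2⟩
    · obtain ⟨r', q₂, i₂, hr, hw⟩ := ih hf
      obtain ⟨r₁, r₂, q₁, i₁, rfl, h1, h2⟩ := WB.split (by rintro rfl; rfl) hw
      refine ⟨r₁ + turnOf up β.length + r₂, q₂, i₂, by omega, ?_⟩
      refine WB.cons' (WB.step (M := M.plus) r₁ up (some q) i X (some q') mv β q₁ i₁ ?_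
        (plus_next_some ?_ hn) h1) h2
      · rintro ⟨p, hp, hp'⟩
        obtain rfl := Option.some.inj hp
        exact hfin (Or.inl hp')
      · exact fun hl => hfin (Or.inr (Or.inr ⟨X, γ, rfl, Or.inl hl⟩))

theorem Steps.exists_tsteps {t : ℕ} {c c' : M.State × ℕ × List M.Stack} (h : M.Steps x t c c') :
    ∀ up, ∃ r, M.TSteps x r up c c' := by
  induction h with
  | refl c => exact fun up => ⟨0, TSteps.refl _ _⟩
  | head t c c₁ c₂ h _ ih =>
    intro up
    cases h with
    | mk q i X γ q' mv β hn =>
      obtain ⟨r, hr⟩ := ih (upNext up β.length)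
      exact ⟨_, TSteps.head _ _ _ _ _ _ _ _ _ _ hn hr⟩

/-- The run ends. -/
theorem exists_fin (hM : ∀ q c X q' mv β, M.next q c X = some (q', mv, β) → mv ≠ Move.left)
    (x : List α) : ∃ t c, M.Steps x t (M.start, 1, [M.bottom]) c ∧ M.Fin x c := by
  classical
  by_contra hcon
  push Not at hcon
  have hsucc : ∀ c : {c // ∃ t, M.Steps x t (M.start, 1, [M.bottom]) c},
      ∃ d : {c // ∃ t, M.Steps x t (M.start, 1, [M.bottom]) c}, M.Step x c.1 d.1 := by
    rintro ⟨⟨q, i, γ⟩, t, ht⟩
    have h1 := hcon t _ ht
    have h2 : γ ≠ [] := fun h2 => h1 (Or.inr (Or.inl h2))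
    obtain ⟨X, δ, rfl⟩ := List.exists_cons_of_ne_nil h2
    rcases hn : M.next q (cell x i) X with _ | ⟨q', mv, β⟩
    · exact absurd (Or.inr (Or.inr ⟨X, δ, rfl, Or.inr hn⟩)) h1
    · have h3 : M.Step x (q, i, X :: δ) (q', mv.apply x.length i, β ++ δ) :=
        Step.mk q i X δ q' mv β hn
      exact ⟨⟨_, t + 1, ht.snoc h3⟩, h3⟩
  choose g hg using hsucc
  set f : ℕ → {c // ∃ t, M.Steps x t (M.start, 1, [M.bottom]) c} :=
    fun t => g^[t] ⟨_, 0, Steps.refl _⟩ with hf
  have hstep : ∀ t, M.Step x (f t).1 (f (t + 1)).1 := fun t => by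
    have : f (t + 1) = g (f t) := Function.iterate_succ_apply' _ _ _
    rw [this]
    exact hg _
  have hnf : ∀ t, ¬M.Fin x (f t).1 := fun t => by
    obtain ⟨s, hs⟩ := (f t).2
    exact hcon s _ hs
  -- positions
  have hle : ∀ t, (f t).1.2.1 ≤ x.length + 1 := by
    intro t
    induction t with
    | zero => exact Nat.le_add_left _ _
    | succ t ih =>
      have h1 := hstep t
      generalize (f (t + 1)).1 = d at h1 ⊢
      generalize (f t).1 = c at h1 ih
      cases h1 with
      | mk q i X γ q' mv β hn => exact mv_apply_le mv ih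
  have hmono : ∀ t, (f t).1.2.1 ≤ (f (t + 1)).1.2.1 := by
    intro t
    have h1 := hstep t
    have h2 := hle t
    generalize (f (t + 1)).1 = d at h1 ⊢
    generalize (f t).1 = c at h1 h2 ⊢
    cases h1 with
    | mk q i X γ q' mv β hn =>
      have h3 := hM _ _ _ _ _ _ hn
      simp only at h2
      cases mv with
      | left => exact absurd rfl h3
      | stay => exact le_rfl
      | right => simp only [Move.apply]; omega
  have hmono' : Monotone fun t => (f t).1.2.1 := monotone_nat_of_le_succ hmono
  have hex : ∃ m t, x.length + 1 - (f t).1.2.1 = m := ⟨_, 0, rfl⟩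
  obtain ⟨T₀, hT₀⟩ := Nat.find_spec hex
  have hconst : ∀ t, T₀ ≤ t → (f t).1.2.1 = (f T₀).1.2.1 := by
    intro t ht
    have h1 := Nat.find_min' hex ⟨t, rfl⟩
    have h2 : (f T₀).1.2.1 ≤ (f t).1.2.1 := hmono' ht
    have h3 := hle t
    have h4 := hle T₀
    omega
  -- heights
  have hex' : ∃ m t, T₀ ≤ t ∧ (f t).1.2.2.length = m := ⟨_, T₀, le_rfl, rfl⟩
  obtain ⟨T₁, hT₁, hT₁'⟩ := Nat.find_spec hex'
  have hmin : ∀ t, T₁ ≤ t → (f T₁).1.2.2.length ≤ (f t).1.2.2.length := by
    intro t ht
    have h1 := Nat.find_min' hex' ⟨t, hT₁.trans ht, rfl⟩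
    omega
  obtain ⟨⟨q, i, γ⟩, hfT⟩ : ∃ c, (f T₁).1 = c := ⟨_, rfl⟩
  have hne : γ ≠ [] := fun h => hnf T₁ (Or.inr (Or.inl (by rw [hfT]; exact h)))
  obtain ⟨X, δ, rfl⟩ := List.exists_cons_of_ne_nil hne
  have hpos : ∀ t, T₁ ≤ t → (f t).1.2.1 = i := fun t ht => by
    rw [hconst t (hT₁.trans ht), ← hconst T₁ hT₁, hfT]
  refine hnf T₁ (Or.inr (Or.inr ⟨X, δ, by rw [hfT], Or.inl ?_⟩))
  rw [hfT]
  intro k
  suffices h : ∃ s : M.State × List M.Stack, M.LSteps (cell x i) k (q, [X]) s ∧
      (f (T₁ + k)).1 = (s.1, i, s.2 ++ δ) by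
    obtain ⟨s, hs, _⟩ := h
    exact ⟨s, hs⟩
  induction k with
  | zero => exact ⟨(q, [X]), LSteps.refl _, hfT⟩
  | succ k ih =>
    obtain ⟨⟨p, ε⟩, hs, he⟩ := ih
    simp only at he
    have h1 := hmin (T₁ + k) (Nat.le_add_right _ _)
    rw [he, hfT] at h1
    simp only [List.length_cons, List.length_append] at h1
    have h2 : ε ≠ [] := by
      rintro rfl
      simp at h1
    obtain ⟨Y, ζ, rfl⟩ := List.exists_cons_of_ne_nil h2
    have h3 := hstep (T₁ + k)
    have h4 := hnf (T₁ + k)
    have h5 := hpos (T₁ + (k + 1)) (Nat.le_add_right _ _)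
    have h6 := hle (T₁ + k)
    rw [he] at h3 h4 h6
    rw [← Nat.add_assoc] at h5 ⊢
    generalize (f (T₁ + k + 1)).1 = d at h3 h5 ⊢
    generalize hc : (p, i, Y :: ζ ++ δ) = c at h3
    cases h3 with
    | mk q₁ i₁ X₁ γ₁ q' mv β hn =>
      simp only [List.cons_append, Prod.mk.injEq, List.cons.injEq] at hc
      obtain ⟨rfl, rfl, rfl, rfl⟩ := hc
      simp only at h5 h6
      have h7 := hM _ _ _ _ _ _ hn
      refine ⟨(q', β ++ ζ), hs.snoc (fun ha => h4 (Or.inl ha)) hn ?_, ?_⟩
      · cases mv with
        | left => exact absurd rfl h7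
        | stay => exact Or.inl rfl
        | right =>
          right
          refine ⟨rfl, ?_⟩
          rw [cell_right_iff]
          simp only [Move.apply] at h5
          omega
      · rw [h5, List.append_assoc]

/-- The tree of the run of `M.plus` has at most one turn more than the run of `M`. -/
theorem turns_wb (hM : ∀ q c X q' mv β, M.next q c X = some (q', mv, β) → mv ≠ Move.left) {R : ℕ}
    (h : M.TurnsLe R x) : ∃ r q i, r ≤ R + 1 ∧
      M.plus.WB x r false (some M.plus.start) 1 [M.plus.bottom] q i := by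
  rcases h with ⟨r, hr, q, i, γ, hs, ha⟩ | h
  · obtain ⟨r', q', i', h1, h2⟩ := hs.plus_wb (Or.inl ha)
    exact ⟨r', q', i', by omega, h2⟩
  · obtain ⟨t, c, hs, hf⟩ := exists_fin hM x
    obtain ⟨r, hr⟩ := hs.exists_tsteps false
    obtain ⟨r', q', i', h1, h2⟩ := hr.plus_wb hf
    have := h r c hr
    exact ⟨r', q', i', by omega, h2⟩

end Pool.Agent.Lib.MP_9277c3_lc.DPDA
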